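import Mathlib
import Pool.Agent.Helper473.Ext

set_option autoImplicit false

namespace Pool.Agent.Results.MP_37ca1f_al.CountableCase

open H473

/-- Let `G` be a topological group (no separation axiom, any cardinality) and `C` a countable
subset of `G` such that infinitely many free ultrafilters on `G` that contain `C` converge to the
identity. Then `G` can be partitioned into two dense subsets. -/
theorem result :
    ∀ (G : Type) [Group G] [TopologicalSpace G] [IsTopologicalGroup G] (C : Set G), C.Countable →
      Set.Infinite {p : Ultrafilter G | (p : Filter G) ≤ Filter.cofinite ∧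
        (p : Filter G) ≤ nhds 1 ∧ C ∈ p} →
      ∃ A : Set G, Dense A ∧ Dense Aᶜ := by
  intro G _ _ _ C hC hinf
  have : Countable (Subgroup.closure C) := closure_countable hC
  apply countable_subgroup (Subgroup.closure C)
  refine hinf.mono ?_
  rintro p ⟨h1, h2, h3⟩
  exact ⟨h1, h2, Filter.mem_of_superset h3 Subgroup.subset_closure⟩

/-- The case of a countable group: the statement of the problem verbatim, for countable `G`. -/
theorem countable_group (G : Type) [Group G] [TopologicalSpace G] [IsTopologicalGroup G]
    [Countable G] (hinf : Set.Infinite {p : Ultrafilter G |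
      (p : Filter G) ≤ Filter.cofinite ∧ (p : Filter G) ≤ nhds 1}) :
    ∃ A : Set G, Dense A ∧ Dense Aᶜ := by
  apply result G Set.univ Set.countable_univ
  refine hinf.mono ?_
  rintro p ⟨h1, h2⟩
  exact ⟨h1, h2, Filter.univ_mem⟩

end Pool.Agent.Results.MP_37ca1f_al.CountableCase
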