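import Pool.Agent.Helper495.Res.Small

set_option autoImplicit false

namespace Pool.Agent.Results.MP_37ca1f_al.SmallGroups

open Cardinal Ordinal H495R Pool.Agent.Helper495.Res

universe u

/-- Malykhin's question has a positive answer for every topological group `G` that has a subgroup
`H` (for instance `G` itself) such that infinitely many of the free ultrafilters converging to the
identity contain `H` and such that either the dispersion character of `H` is countable, or it is
regular and not a strong limit, or `H` belongs to the class `TameW`. -/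
theorem result :
    (∀ (G : Type u) [Group G] [TopologicalSpace G] [IsTopologicalGroup G] (H : Subgroup G),
      (dispersion H ≤ ℵ₀ ∨ (dispersion H).IsRegular ∧
        ∃ μ, μ < dispersion H ∧ dispersion H ≤ 2 ^ μ) →
      Set.Infinite {p : Ultrafilter G | (p : Filter G) ≤ Filter.cofinite ∧
        (p : Filter G) ≤ nhds 1 ∧ (H : Set G) ∈ p} →
      ∃ A : Set G, Dense A ∧ Dense Aᶜ) ∧
    (∀ (G : Type) [Group G] [TopologicalSpace G] [IsTopologicalGroup G] (H : Subgroup G),
      TameW H →
      Set.Infinite {p : Ultrafilter G | (p : Filter G) ≤ Filter.cofinite ∧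
        (p : Filter G) ≤ nhds 1 ∧ (H : Set G) ∈ p} →
      ∃ A : Set G, Dense A ∧ Dense Aᶜ) := by
  constructor
  · intro G _ _ _ H h hinf
    exact res_of_subgroup H (res_of_nhds (countable_nhds_of_dispersion H h) (UF_subgroup H hinf))
  · intro G _ _ _ H h hinf
    exact res_of_subgroup H (res_of_good (good_of_tameW H h) (UF_subgroup H hinf))

/-- The statement of the problem for every group of cardinality less than `ℵ_ω`. -/
theorem aleph_omega (G : Type) [Group G] [TopologicalSpace G] [IsTopologicalGroup G]
    (hG : #G < ℵ_ ω) (hinf : Set.Infinite {p : Ultrafilter G |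
      (p : Filter G) ≤ Filter.cofinite ∧ (p : Filter G) ≤ nhds 1}) :
    ∃ A : Set G, Dense A ∧ Dense Aᶜ := by
  apply res_of_good (good_of_small G hG)
  refine hinf.mono ?_
  rintro p ⟨h1, h2⟩
  exact ⟨h1, h2, Filter.univ_mem⟩

end Pool.Agent.Results.MP_37ca1f_al.SmallGroups
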