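import Mathlib
import Pool.Agent.Helper473.Tame

set_option autoImplicit false

namespace Pool.Agent.Results.MP_37ca1f_al.TameGroups

open H473

/-- Let `G` be a topological group and `H` a subgroup that belongs to the smallest class of groups
containing all subgroups of restricted direct products of countable groups and closed under
extensions and countable-index overgroups. If infinitely many free ultrafilters that contain `H`
converge to the identity, then `G` can be partitioned into two dense subsets. -/
theorem result :
    ∀ (G : Type) [Group G] [TopologicalSpace G] [IsTopologicalGroup G] (H : Subgroup G), Tame H →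
      Set.Infinite {p : Ultrafilter G | (p : Filter G) ≤ Filter.cofinite ∧
        (p : Filter G) ≤ nhds 1 ∧ (H : Set G) ∈ p} →
      ∃ A : Set G, Dense A ∧ Dense Aᶜ := by
  intro G _ _ _ H hH hinf
  exact res_of_subgroup H (res_of_good (good_of_tame H hH) (UF_subgroup H hinf))

/-- The statement of the problem for every tame group `G`. -/
theorem tame_group (G : Type) [Group G] [TopologicalSpace G] [IsTopologicalGroup G] (hG : Tame G)
    (hinf : Set.Infinite {p : Ultrafilter G |
      (p : Filter G) ≤ Filter.cofinite ∧ (p : Filter G) ≤ nhds 1}) :
    ∃ A : Set G, Dense A ∧ Dense Aᶜ := by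
  apply res_of_good (good_of_tame G hG)
  refine hinf.mono ?_
  rintro p ⟨h1, h2⟩
  exact ⟨h1, h2, Filter.univ_mem⟩

/-- The statement of the problem for every countable group `G`. -/
theorem countable_group (G : Type) [Group G] [TopologicalSpace G] [IsTopologicalGroup G]
    [Countable G] (hinf : Set.Infinite {p : Ultrafilter G |
      (p : Filter G) ≤ Filter.cofinite ∧ (p : Filter G) ≤ nhds 1}) :
    ∃ A : Set G, Dense A ∧ Dense Aᶜ :=
  tame_group G (tame_of_countable G) hinf

/-- The statement of the problem for every abelian group `G` of any cardinality. -/
theorem abelian_group (G : Type) [CommGroup G] [TopologicalSpace G] [IsTopologicalGroup G]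
    (hinf : Set.Infinite {p : Ultrafilter G |
      (p : Filter G) ≤ Filter.cofinite ∧ (p : Filter G) ≤ nhds 1}) :
    ∃ A : Set G, Dense A ∧ Dense Aᶜ :=
  tame_group G (tame_of_comm G mul_comm) hinf

/-- The statement of the problem for every solvable group `G` of any cardinality. -/
theorem solvable_group (G : Type) [Group G] [TopologicalSpace G] [IsTopologicalGroup G]
    [Group.IsSolvable G] (hinf : Set.Infinite {p : Ultrafilter G |
      (p : Filter G) ≤ Filter.cofinite ∧ (p : Filter G) ≤ nhds 1}) :
    ∃ A : Set G, Dense A ∧ Dense Aᶜ :=
  tame_group G (tame_of_solvable G) hinf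

end Pool.Agent.Results.MP_37ca1f_al.TameGroups
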